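import Mathlib

/-!
# `T_x + T_y + 6 T_z` represents exactly the admissible numbers

`n = T_x + T_y + 6 T_z` if and only if `n ≢ 2·3^(2r-1) - 1 (mod 3^(2r))` for all `r ≥ 1`.

The proof: `n + 1 = u² + s² + s t + t²` with `s, t` not both even is equivalent to a representation.
The form `u² + s² + s t + t²` is (up to equivalence) the only positive definite integral ternary form
of half-discriminant three; a form of half-discriminant three representing `N` is found by
Dirichlet's theorem on primes in progressions and quadratic reciprocity; finally the parity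
condition is achieved by integral reflections and a descent.
-/

namespace Pool.Agent.Results.MP_fb76f8_nt.TriangularOneOneSix

/-- `N` is represented by `u² + s² + s t + t²`. -/
def RepG (N : ℤ) : Prop := ∃ u s t : ℤ, N = u ^ 2 + (s ^ 2 + s * t + t ^ 2)

/-- the general ternary form -/
def F (A B C a b c x y z : ℤ) : ℤ :=
  A * x ^ 2 + B * y ^ 2 + C * z ^ 2 + a * y * z + b * x * z + c * x * y

/-- positive definiteness -/
def PD (A B C a b c : ℤ) : Prop :=
  ∀ x y z : ℤ, F A B C a b c x y z ≤ 0 → x = 0 ∧ y = 0 ∧ z = 0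

/-- half-discriminant -/
def D (A B C a b c : ℤ) : ℤ :=
  4 * A * B * C + a * b * c - A * a ^ 2 - B * b ^ 2 - C * c ^ 2

lemma ineq_pos (A B C p q r : ℤ) (hA : 0 < A) (hAB : A ≤ B) (hBC : B ≤ C) (hp0 : 0 ≤ p)
    (hp : p ≤ B) (hq0 : 0 ≤ q) (hq : q ≤ A) (hr0 : 0 ≤ r) (hr : r ≤ A) :
    A * p ^ 2 + B * q ^ 2 + C * r ^ 2 ≤ 2 * A * B * C + p * q * r := by
  have hB : 0 < B := by omega
  have h1 : 0 ≤ (C - B) * (2 * A * B - r ^ 2) := by
    apply mul_nonneg (by omega)
    nlinarith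
  have h2 : A * p ^ 2 + B * q ^ 2 + B * r ^ 2 ≤ 2 * A * B * B + p * q * r := by
    have h3 : q ^ 2 + r ^ 2 - q * r ≤ A ^ 2 := by
      rcases le_total q r with h | h
      · nlinarith [mul_nonneg hq0 (sub_nonneg.2 h)]
      · nlinarith [mul_nonneg hr0 (sub_nonneg.2 h)]
    rcases le_total (A * p) (q * r) with h | h
    · have h4 : p * (A * p - q * r) ≤ 0 := mul_nonpos_of_nonneg_of_nonpos hp0 (by linarith)
      have h5 : B * (q ^ 2 + r ^ 2) ≤ B * (2 * A ^ 2) :=
        mul_le_mul_of_nonneg_left (by nlinarith) hB.le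
      have h6 : B * (2 * A ^ 2) ≤ 2 * A * B * B := by nlinarith [mul_pos hA hB]
      nlinarith
    · have h4 : p * (A * p - q * r) ≤ B * (A * B - q * r) := by
        apply mul_le_mul hp (by nlinarith) (by linarith) hB.le
      have h5 : B * (q ^ 2 + r ^ 2 - q * r) ≤ B * A ^ 2 := mul_le_mul_of_nonneg_left h3 hB.le
      have h6 : B * A ^ 2 ≤ A * B * B := by nlinarith [mul_pos hA hB]
      nlinarith
  nlinarith

lemma ineq_neg (A B C p q r : ℤ) (hA : 0 < A) (hAB : A ≤ B) (hBC : B ≤ C) (hp0 : 0 ≤ p)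
    (hp : p ≤ B) (hq0 : 0 ≤ q) (hq : q ≤ A) (hr0 : 0 ≤ r) (hr : r ≤ A) (hs : p + q + r ≤ A + B) :
    A * p ^ 2 + B * q ^ 2 + C * r ^ 2 + p * q * r ≤ 2 * A * B * C := by
  have hB : 0 < B := by omega
  have h1 : 0 ≤ (C - B) * (2 * A * B - r ^ 2) := by
    apply mul_nonneg (by omega)
    nlinarith
  have hqr : 0 ≤ q * r := mul_nonneg hq0 hr0
  have h2 : A * p ^ 2 + B * q ^ 2 + B * r ^ 2 + p * q * r ≤ 2 * A * B * B := by
    rcases le_total (q + r) A with h | h
    · have h3 : p * (A * p + q * r) ≤ B * (A * B + q * r) := by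
        apply mul_le_mul hp (by nlinarith) (by positivity) hB.le
      have h4 : (q + r) ^ 2 ≤ A ^ 2 := by nlinarith
      have h5 : B * (q + r) ^ 2 ≤ B * A ^ 2 := mul_le_mul_of_nonneg_left h4 hB.le
      have h6 : B * A ^ 2 ≤ A * B * B := by nlinarith [mul_pos hA hB]
      nlinarith [mul_nonneg hB.le hqr]
    · set s := q + r with hsdef
      have hp' : p ≤ A + B - s := by omega
      have hs2 : s ≤ 2 * A := by omega
      have hnn : 0 ≤ A + B - s := by omega
      have h3 : p * (A * p + q * r) ≤ (A + B - s) * (A * (A + B - s) + q * r) := by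
        apply mul_le_mul hp' (by nlinarith) (by positivity) hnn
      have h4 : A * (s - A) ≤ q * r := by nlinarith [mul_nonneg (sub_nonneg.2 hq) (sub_nonneg.2 hr)]
      have h5 : (B + s - A) * (A * (s - A)) ≤ (B + s - A) * (q * r) :=
        mul_le_mul_of_nonneg_left h4 (by omega)
      have h6 : 0 ≤ (s - A) * (2 * A - s) := mul_nonneg (by omega) (by omega)
      have h7 : 0 ≤ B * ((s - A) * (2 * A - s)) := mul_nonneg hB.le h6
      have h8 : 0 ≤ B * (A * (B - A)) := mul_nonneg hB.le (mul_nonneg hA.le (by omega))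
      nlinarith
  nlinarith

lemma bound_of_min (A B C a b c : ℤ) (hA : 0 < A) (hAB : A ≤ B) (hBC : B ≤ C)
    (hmin : ∀ l m n : ℤ, B + C ≤ F A B C a b c l 1 0 + F A B C a b c m n 1) :
    2 * A * B * C ≤ D A B C a b c ∧ |a| ≤ B ∧ |b| ≤ A ∧ |c| ≤ A := by
  have e1 := hmin 1 0 0
  have e2 := hmin (-1) 0 0
  have e3 := hmin 0 1 0
  have e4 := hmin 0 (-1) 0
  have e5 := hmin 0 0 1
  have e6 := hmin 0 0 (-1)
  have e7 := hmin 0 1 1
  have e8 := hmin 0 (-1) 1
  have e9 := hmin 0 1 (-1)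
  have e10 := hmin 0 (-1) (-1)
  simp only [F] at e1 e2 e3 e4 e5 e6 e7 e8 e9 e10
  refine ⟨?_, abs_le.2 ⟨by linarith, by linarith⟩, abs_le.2 ⟨by linarith, by linarith⟩,
    abs_le.2 ⟨by linarith, by linarith⟩⟩
  unfold D
  rcases le_total 0 a with ha | ha <;> rcases le_total 0 b with hb | hb <;>
    rcases le_total 0 c with hc | hc
  · have := ineq_pos A B C a b c hA hAB hBC ha (by linarith) hb (by linarith) hc (by linarith)
    nlinarith
  · have := ineq_neg A B C a b (-c) hA hAB hBC ha (by linarith) hb (by linarith) (by linarith)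
      (by linarith) (by linarith)
    nlinarith
  · have := ineq_neg A B C a (-b) c hA hAB hBC ha (by linarith) (by linarith) (by linarith) hc
      (by linarith) (by linarith)
    nlinarith
  · have := ineq_pos A B C a (-b) (-c) hA hAB hBC ha (by linarith) (by linarith) (by linarith)
      (by linarith) (by linarith)
    nlinarith
  · have := ineq_neg A B C (-a) b c hA hAB hBC (by linarith) (by linarith) hb (by linarith) hc
      (by linarith) (by linarith)
    nlinarith
  · have := ineq_pos A B C (-a) b (-c) hA hAB hBC (by linarith) (by linarith) hb (by linarith)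
      (by linarith) (by linarith)
    nlinarith
  · have := ineq_pos A B C (-a) (-b) c hA hAB hBC (by linarith) (by linarith) (by linarith)
      (by linarith) hc (by linarith)
    nlinarith
  · have := ineq_neg A B C (-a) (-b) (-c) hA hAB hBC (by linarith) (by linarith) (by linarith)
      (by linarith) (by linarith) (by linarith) (by linarith)
    nlinarith

lemma final (A B C a b c : ℤ) (hA : 0 < A) (hAB : A ≤ B) (hBC : B ≤ C) (hD : D A B C a b c = 3)
    (hmin : ∀ l m n : ℤ, B + C ≤ F A B C a b c l 1 0 + F A B C a b c m n 1) (x y z : ℤ) :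
    RepG (F A B C a b c x y z) := by
  obtain ⟨h1, h2, h3, h4⟩ := bound_of_min A B C a b c hA hAB hBC hmin
  rw [hD] at h1
  have hB : 0 < B := by omega
  have hC : 0 < C := by omega
  have hC1 : C = 1 := by
    by_contra hne
    have hC2 : 2 ≤ C := by omega
    have : 1 ≤ A * B := by nlinarith
    nlinarith
  have hB1 : B = 1 := by omega
  have hA1 : A = 1 := by omega
  subst hC1 hB1 hA1
  rw [abs_le] at h2 h3 h4
  obtain ⟨h2, h2'⟩ := h2
  obtain ⟨h3, h3'⟩ := h3
  obtain ⟨h4, h4'⟩ := h4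
  unfold D at hD
  interval_cases a <;> interval_cases b <;> interval_cases c <;>
    first
    | (exfalso; norm_num at hD; done)
    | (refine ⟨x, y, z, ?_⟩; unfold F; ring1)
    | (refine ⟨y, x, z, ?_⟩; unfold F; ring1)
    | (refine ⟨z, x, y, ?_⟩; unfold F; ring1)
    | (refine ⟨x, y, -z, ?_⟩; unfold F; ring1)
    | (refine ⟨y, x, -z, ?_⟩; unfold F; ring1)
    | (refine ⟨z, x, -y, ?_⟩; unfold F; ring1)

lemma PD.swap12 {A B C a b c : ℤ} (h : PD A B C a b c) : PD B A C b a c := by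
  intro x y z hx
  have := h y x z (by unfold F at *; linarith)
  exact ⟨this.2.1, this.1, this.2.2⟩

lemma PD.swap23 {A B C a b c : ℤ} (h : PD A B C a b c) : PD A C B a c b := by
  intro x y z hx
  have := h x z y (by unfold F at *; linarith)
  exact ⟨this.1, this.2.2, this.2.1⟩

lemma PD.pos {A B C a b c : ℤ} (h : PD A B C a b c) : 0 < A ∧ 0 < B ∧ 0 < C := by
  refine ⟨?_, ?_, ?_⟩
  · by_contra hn
    have := h 1 0 0 (by unfold F; linarith)
    simp at this
  · by_contra hn
    have := h 0 1 0 (by unfold F; linarith)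
    simp at this
  · by_contra hn
    have := h 0 0 1 (by unfold F; linarith)
    simp at this

/-- One reduction step for sorted forms. -/
lemma sorted_step (k : ℕ)
    (ih : ∀ A B C a b c : ℤ, A + B + C ≤ k → PD A B C a b c → D A B C a b c = 3 →
      ∀ x y z : ℤ, RepG (F A B C a b c x y z))
    (A B C a b c : ℤ) (hAB : A ≤ B) (hBC : B ≤ C) (hk : A + B + C ≤ k + 1)
    (hP : PD A B C a b c) (hD : D A B C a b c = 3) (x y z : ℤ) :
    RepG (F A B C a b c x y z) := by
  by_cases hmin : ∀ l m n : ℤ, B + C ≤ F A B C a b c l 1 0 + F A B C a b c m n 1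
  · exact final A B C a b c hP.pos.1 hAB hBC hD hmin x y z
  · push Not at hmin
    obtain ⟨l, m, n, h⟩ := hmin
    set B' := F A B C a b c l 1 0 with hB'
    set C' := F A B C a b c m n 1 with hC'
    set c' := c + 2 * A * l with hc'
    set b' := 2 * A * m + c * n + b with hb'
    set a' := 2 * A * l * m + 2 * B * n + c * (l * n + m) + b * l + a with ha'
    have key : ∀ u v w : ℤ, F A B' C' a' b' c' u v w =
        F A B C a b c (u + l * v + m * w) (v + n * w) w := by
      intro u v w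
      simp only [hB', hC', hc', hb', ha', F]
      ring
    have hD' : D A B' C' a' b' c' = 3 := by
      rw [← hD]
      simp only [hB', hC', hc', hb', ha', F, D]
      ring
    have hP' : PD A B' C' a' b' c' := by
      intro u v w huvw
      rw [key] at huvw
      obtain ⟨h1, h2, h3⟩ := hP _ _ _ huvw
      subst h3
      have h4 : v = 0 := by linarith
      subst h4
      exact ⟨by linarith, rfl, rfl⟩
    have h5 := ih A B' C' a' b' c' (by omega) hP' hD' (x - l * (y - n * z) - m * z) (y - n * z) z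
    rw [key] at h5
    have e1 : x - l * (y - n * z) - m * z + l * (y - n * z) + m * z = x := by ring
    have e2 : y - n * z + n * z = y := by ring
    rw [e1, e2] at h5
    exact h5

lemma F_swap12 (A B C a b c x y z : ℤ) : F A B C a b c x y z = F B A C b a c y x z := by
  unfold F; ring

lemma F_swap23 (A B C a b c x y z : ℤ) : F A B C a b c x y z = F A C B a c b x z y := by
  unfold F; ring

lemma D_swap12 (A B C a b c : ℤ) : D A B C a b c = D B A C b a c := by
  unfold D; ring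

lemma D_swap23 (A B C a b c : ℤ) : D A B C a b c = D A C B a c b := by
  unfold D; ring

/-- Every positive definite form of half-discriminant three only represents values of
`u² + s² + st + t²`. -/
lemma reduce (k : ℕ) : ∀ A B C a b c : ℤ, A + B + C ≤ k → PD A B C a b c → D A B C a b c = 3 →
    ∀ x y z : ℤ, RepG (F A B C a b c x y z) := by
  induction k with
  | zero =>
    intro A B C a b c hk hP
    obtain ⟨h1, h2, h3⟩ := hP.pos
    exfalso
    push_cast at hk
    omega
  | succ k ih =>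
    have S := sorted_step k ih
    intro A B C a b c hk hP hD x y z
    push_cast at hk
    rcases le_total A B with h1 | h1 <;> rcases le_total B C with h2 | h2 <;>
      rcases le_total A C with h3 | h3
    · exact S A B C a b c h1 h2 hk hP hD x y z
    · exact S A B C a b c h1 h2 hk hP hD x y z
    · rw [F_swap23]
      exact S A C B a c b h3 h2 (by omega) hP.swap23 (by rw [← D_swap23]; exact hD) _ _ _
    · rw [F_swap23, F_swap12]
      exact S C A B c a b h3 h1 (by omega) hP.swap23.swap12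
        (by rw [← D_swap12, ← D_swap23]; exact hD) _ _ _
    · rw [F_swap12]
      exact S B A C b a c h1 h3 (by omega) hP.swap12 (by rw [← D_swap12]; exact hD) _ _ _
    · rw [F_swap12, F_swap23]
      exact S B C A b c a h2 h3 (by omega) hP.swap12.swap23
        (by rw [← D_swap23, ← D_swap12]; exact hD) _ _ _
    · rw [F_swap12, F_swap23, F_swap12]
      exact S C B A c b a h2 h1 (by omega) hP.swap12.swap23.swap12
        (by rw [← D_swap12, ← D_swap23, ← D_swap12]; exact hD) _ _ _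
    · rw [F_swap12, F_swap23, F_swap12]
      exact S C B A c b a h2 h1 (by omega) hP.swap12.swap23.swap12
        (by rw [← D_swap12, ← D_swap23, ← D_swap12]; exact hD) _ _ _

/-! ### Finding the form -/

open NumberTheorySymbols

lemma PD_of (A B N b α q : ℤ) (hN : 0 < N) (hq : 0 < q) (h1 : 4 * N * A = α ^ 2 + q)
    (h2 : q * B = N * b ^ 2 + 3) : PD A B N 0 α b := by
  intro x y z h
  have key : 4 * N * q * F A B N 0 α b x y z =
      q * (α * x + 2 * N * z) ^ 2 + (q * x + 2 * N * b * y) ^ 2 + 12 * N * y ^ 2 := by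
    unfold F
    linear_combination (q * x ^ 2) * h1 + (4 * N * y ^ 2) * h2
  have h3 : 4 * N * q * F A B N 0 α b x y z ≤ 0 :=
    mul_nonpos_of_nonneg_of_nonpos (by positivity) h
  rw [key] at h3
  have p1 : 0 ≤ q * (α * x + 2 * N * z) ^ 2 := by positivity
  have p2 : 0 ≤ (q * x + 2 * N * b * y) ^ 2 := by positivity
  have p3 : 0 ≤ 12 * N * y ^ 2 := by positivity
  have hy : y = 0 := by
    have : 12 * N * y ^ 2 = 0 := by linarith
    have h12 : (12 * N : ℤ) ≠ 0 := by positivity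
    exact pow_eq_zero_iff (two_ne_zero) |>.1 ((mul_eq_zero.1 this).resolve_left h12)
  subst hy
  have hx : x = 0 := by
    have : (q * x + 2 * N * b * 0) ^ 2 = 0 := by linarith
    have h4 := pow_eq_zero_iff (two_ne_zero) |>.1 this
    have h5 : q * x = 0 := by linarith
    exact (mul_eq_zero.1 h5).resolve_left hq.ne'
  subst hx
  have hz : z = 0 := by
    have : q * (α * 0 + 2 * N * z) ^ 2 = 0 := by linarith
    have h4 := pow_eq_zero_iff (two_ne_zero) |>.1 ((mul_eq_zero.1 this).resolve_left hq.ne')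
    have h5 : (2 * N) * z = 0 := by linarith
    exact (mul_eq_zero.1 h5).resolve_left (by positivity)
  exact ⟨rfl, rfl, hz⟩

lemma repG_of (A B N b α q : ℤ) (hN : 0 < N) (hq : 0 < q) (h1 : 4 * N * A = α ^ 2 + q)
    (h2 : q * B = N * b ^ 2 + 3) : RepG N := by
  have hP := PD_of A B N b α q hN hq h1 h2
  have hD : D A B N 0 α b = 3 := by
    unfold D
    linear_combination B * h1 + h2
  have h3 := reduce (A + B + N).toNat A B N 0 α b (Int.self_le_toNat _) hP hD 0 0 1
  have h4 : F A B N 0 α b 0 0 1 = N := by unfold F; ring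
  rwa [h4] at h3

lemma exists_b (q N : ℕ) (hq : q.Prime) (k : ℤ) (hN : ¬ q ∣ N) (h : J(-k * N | q) = 1) :
    ∃ b : ℤ, (q : ℤ) ∣ N * b ^ 2 + k := by
  have : Fact q.Prime := ⟨hq⟩
  rw [← jacobiSym.legendreSym.to_jacobiSym] at h
  have hsq : IsSquare ((-k * N : ℤ) : ZMod q) := by
    by_cases h0 : ((-k * N : ℤ) : ZMod q) = 0
    · rw [h0]; exact ⟨0, by simp⟩
    · exact (legendreSym.eq_one_iff q h0).1 h
  obtain ⟨s, hs⟩ := hsq
  have hN0 : (N : ZMod q) ≠ 0 := by
    rwa [Ne, ZMod.natCast_eq_zero_iff]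
  refine ⟨((s * (N : ZMod q)⁻¹).val : ℤ), ?_⟩
  rw [← ZMod.intCast_zmod_eq_zero_iff_dvd]
  push_cast at hs ⊢
  rw [ZMod.natCast_val, ZMod.cast_id', id]
  field_simp
  linear_combination -hs

lemma case_one (N : ℕ) (hN : 0 < N) (h3 : ¬ 3 ∣ N) : RepG N := by
  have : NeZero (12 * N) := ⟨by omega⟩
  have hN2 : N ^ 2 % 3 = 1 := by
    have : N % 3 = 1 ∨ N % 3 = 2 := by omega
    rcases this with h | h <;> simp [Nat.pow_mod, h]
  have hN1 : 1 ≤ N ^ 2 := Nat.one_le_pow _ _ hN
  have hcop : Nat.Coprime (8 * N ^ 2 - 1) (12 * N) := by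
    rw [show 12 * N = 3 * (4 * N) by ring]
    apply Nat.Coprime.mul_right
    · rw [Nat.coprime_comm, Nat.Prime.coprime_iff_not_dvd Nat.prime_three]
      omega
    · have h5 : 8 * N ^ 2 = (4 * N) * (2 * N) := by ring
      have h6 : Nat.Coprime (8 * N ^ 2 - 1) (8 * N ^ 2) := by
        have h7 := (Nat.coprime_self_sub_left (show 1 ≤ 8 * N ^ 2 by omega)).2
          (Nat.coprime_one_left (8 * N ^ 2))
        exact h7
      rw [h5] at h6 ⊢
      exact Nat.Coprime.coprime_mul_right_right h6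
  obtain ⟨q, hqn, hq, hqr⟩ := Nat.forall_exists_prime_gt_and_eq_mod
    (a := ((8 * N ^ 2 - 1 : ℕ) : ZMod (12 * N)))
    ((ZMod.isUnit_iff_coprime (8 * N ^ 2 - 1) (12 * N)).2 hcop) (12 * N)
  have hqr' : q ≡ 8 * N ^ 2 - 1 [MOD 12 * N] := (ZMod.natCast_eq_natCast_iff q _ (12 * N)).1 hqr
  have hq3 : q % 3 = 1 := by
    have h4 : q % 3 = (8 * N ^ 2 - 1) % 3 :=
      Nat.ModEq.of_mul_right (4 * N) (show q ≡ 8 * N ^ 2 - 1 [MOD 3 * (4 * N)] by
        rwa [show 3 * (4 * N) = 12 * N by ring])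
    omega
  have hqN : q ≡ 8 * N ^ 2 - 1 [MOD 4 * N] :=
    Nat.ModEq.of_mul_left 3 (show q ≡ 8 * N ^ 2 - 1 [MOD 3 * (4 * N)] by
        rwa [show 3 * (4 * N) = 12 * N by ring])
  have hdvd : 4 * N ∣ q + 1 := by
    have h4 : q + 1 ≡ 8 * N ^ 2 - 1 + 1 [MOD 4 * N] := hqN.add_right 1
    rw [show 8 * N ^ 2 - 1 + 1 = 4 * N * (2 * N) by
      rw [Nat.sub_add_cancel (by omega)]; ring] at h4
    exact (Nat.modEq_zero_iff_dvd).1 (h4.trans (by simp [Nat.ModEq]))
  have hq4 : q % 4 = 3 := by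
    have : 4 ∣ q + 1 := Dvd.dvd.trans ⟨N, rfl⟩ hdvd
    omega
  have hq12 : q % 12 = 7 := by omega
  have hqodd : Odd q := Nat.odd_iff.2 (by omega)
  have hqmod : q % (4 * N) = 4 * N - 1 := by
    obtain ⟨k, hk⟩ := hdvd
    have hk0 : 0 < k := by
      rcases Nat.eq_zero_or_pos k with h | h
      · subst h; omega
      · exact h
    obtain ⟨j, rfl⟩ : ∃ j, k = j + 1 := ⟨k - 1, by omega⟩
    have : q = (4 * N - 1) + 4 * N * j := by
      have : 4 * N * (j + 1) = 4 * N * j + 4 * N := by ring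
      omega
    rw [this, Nat.add_mul_mod_self_left, Nat.mod_eq_of_lt (by omega)]
  -- Jacobi symbols
  have j1 : J((N : ℤ) | q) = 1 := by
    rw [jacobiSym.mod_right (N : ℤ) hqodd, Int.natAbs_natCast, hqmod]
    have e1 : J((4 : ℤ) * N | 4 * N - 1) = 1 := by
      rw [jacobiSym.mod_left' (a₂ := 1) (by
        have : ((4 * N - 1 : ℕ) : ℤ) = 4 * (N : ℤ) - 1 := by omega
        rw [this]
        rw [Int.emod_eq_emod_iff_emod_sub_eq_zero]
        exact Int.emod_self), jacobiSym.one_left]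
    have e2 : J((4 : ℤ) | 4 * N - 1) = 1 := by
      have : (4 : ℤ) = 2 ^ 2 := by norm_num
      rw [this]
      apply jacobiSym.sq_one'
      rw [Int.gcd_eq_natAbs]
      have h2 : Nat.Coprime 2 (4 * N - 1) := by
        rw [Nat.coprime_two_left]
        exact Nat.odd_iff.2 (by omega)
      simpa using h2
    rw [jacobiSym.mul_left, e2, one_mul] at e1
    exact e1
  have j2 : J((-3 : ℤ) | q) = 1 := by
    rw [jacobiSym.mod_right (-3 : ℤ) hqodd]
    have : q % (4 * (-3 : ℤ).natAbs) = 7 := by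
      have : (-3 : ℤ).natAbs = 3 := rfl
      rw [this]
      omega
    rw [this]
    norm_num
  have j3 : J(-3 * (N : ℤ) | q) = 1 := by
    rw [jacobiSym.mul_left, j1, j2, one_mul]
  have hqN' : ¬ q ∣ N := fun h => by
    have := Nat.le_of_dvd hN h
    omega
  obtain ⟨b, B, hb⟩ := exists_b q N hq 3 hqN' j3
  obtain ⟨A, hA⟩ := hdvd
  refine repG_of A B N b 1 q (by exact_mod_cast hN) (by exact_mod_cast hq.pos) ?_ hb.symm
  have : ((q + 1 : ℕ) : ℤ) = ((4 * N * A : ℕ) : ℤ) := by rw [hA]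
  push_cast at this
  linarith

lemma case_two (N : ℕ) (h3 : N % 3 = 1) : RepG ((3 * N : ℕ) : ℤ) := by
  have hN : 0 < N := by omega
  have : NeZero (4 * N) := ⟨by omega⟩
  have hcop : Nat.Coprime (4 * N - 3) (4 * N) := by
    have h3' : Nat.Coprime 3 (4 * N) := by
      rw [Nat.Prime.coprime_iff_not_dvd Nat.prime_three]
      omega
    exact (Nat.coprime_self_sub_left (by omega)).2 h3'
  obtain ⟨q, hqn, hq, hqr⟩ := Nat.forall_exists_prime_gt_and_eq_mod
    (a := ((4 * N - 3 : ℕ) : ZMod (4 * N)))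
    ((ZMod.isUnit_iff_coprime (4 * N - 3) (4 * N)).2 hcop) (12 * N)
  have hqN : q ≡ 4 * N - 3 [MOD 4 * N] := (ZMod.natCast_eq_natCast_iff q _ (4 * N)).1 hqr
  have hqmod : q % (4 * N) = 4 * N - 3 := by
    have : q % (4 * N) = (4 * N - 3) % (4 * N) := hqN
    rw [this, Nat.mod_eq_of_lt (by omega)]
  have hdvd : 4 * N ∣ q + 3 := by
    have h4 : q + 3 ≡ 4 * N - 3 + 3 [MOD 4 * N] := hqN.add_right 3
    rw [show 4 * N - 3 + 3 = 4 * N by omega] at h4
    exact (Nat.modEq_zero_iff_dvd).1 (h4.trans (by simp [Nat.ModEq]))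
  have hq4 : q % 4 = 1 := by
    have : 4 ∣ q + 3 := Dvd.dvd.trans ⟨N, rfl⟩ hdvd
    omega
  have hqodd : Odd q := Nat.odd_iff.2 (by omega)
  -- Jacobi symbols
  have h43 : (4 * N - 3) % 4 = 1 := by omega
  have h43odd : Odd (4 * N - 3) := Nat.odd_iff.2 (by omega)
  have j1 : J((N : ℤ) | q) = 1 := by
    rw [jacobiSym.mod_right (N : ℤ) hqodd, Int.natAbs_natCast, hqmod]
    have e1 : J((4 : ℤ) * N | 4 * N - 3) = 1 := by
      rw [jacobiSym.mod_left' (a₂ := (3 : ℕ)) (by
        have : ((4 * N - 3 : ℕ) : ℤ) = 4 * (N : ℤ) - 3 := by omega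
        rw [this]
        rw [Int.emod_eq_emod_iff_emod_sub_eq_zero]
        exact Int.emod_self)]
      rw [jacobiSym.quadratic_reciprocity_one_mod_four' (by decide) h43]
      rw [jacobiSym.mod_left]
      have : ((4 * N - 3 : ℕ) : ℤ) % ((3 : ℕ) : ℤ) = 1 := by omega
      rw [this, jacobiSym.one_left]
    have e2 : J((4 : ℤ) | 4 * N - 3) = 1 := by
      have : (4 : ℤ) = 2 ^ 2 := by norm_num
      rw [this]
      apply jacobiSym.sq_one'
      rw [Int.gcd_eq_natAbs]
      have h2 : Nat.Coprime 2 (4 * N - 3) := by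
        rw [Nat.coprime_two_left]
        exact h43odd
      simpa using h2
    rw [jacobiSym.mul_left, e2, one_mul] at e1
    exact e1
  have j2 : J((-1 : ℤ) | q) = 1 := by
    rw [jacobiSym.at_neg_one hqodd, ZMod.χ₄_nat_one_mod_four hq4]
  have j3 : J(-1 * (N : ℤ) | q) = 1 := by
    rw [jacobiSym.mul_left, j1, j2, one_mul]
  have hqN' : ¬ q ∣ N := fun h => by
    have := Nat.le_of_dvd hN h
    omega
  obtain ⟨b, B, hb⟩ := exists_b q N hq 1 hqN' j3
  obtain ⟨A, hA⟩ := hdvd
  have hq0 : (0 : ℤ) < q := by exact_mod_cast hq.pos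
  refine repG_of A B _ b 3 (3 * q) (by push_cast; omega) (by omega) ?_ ?_
  · have : ((q + 3 : ℕ) : ℤ) = ((4 * N * A : ℕ) : ℤ) := by rw [hA]
    push_cast at this ⊢
    linarith
  · push_cast
    linear_combination -3 * hb

lemma RepG.mul_sq {N : ℤ} (h : RepG N) (k : ℤ) : RepG (k ^ 2 * N) := by
  obtain ⟨u, s, t, rfl⟩ := h
  exact ⟨k * u, k * s, k * t, by ring⟩

/-- Every positive integer outside the classes `2·3^(2r-1) mod 3^(2r)` is represented. -/
lemma repG_all (N : ℕ) : 0 < N → (∀ r : ℕ, 1 ≤ r →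
    ¬ ((N : ℤ) ≡ 2 * 3 ^ (2 * r - 1) [ZMOD 3 ^ (2 * r)])) → RepG N := by
  induction N using Nat.strong_induction_on with
  | _ N ih =>
    intro hN h
    by_cases h3 : 3 ∣ N
    · obtain ⟨M, rfl⟩ := h3
      by_cases h9 : 3 ∣ M
      · obtain ⟨K, rfl⟩ := h9
        have h1 := ih K (by omega) (by omega) (by
          intro r hr hc
          apply h (r + 1) (by omega)
          obtain ⟨c, hc⟩ := hc.symm.dvd
          refine (Int.modEq_iff_dvd.2 ⟨c, ?_⟩).symm
          obtain ⟨j, rfl⟩ : ∃ j, r = j + 1 := ⟨r - 1, by omega⟩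
          have e1 : 2 * (j + 1 + 1) - 1 = 2 * (j + 1) - 1 + 2 := by omega
          have e2 : 2 * (j + 1 + 1) = 2 * (j + 1) + 2 := by omega
          rw [e1, e2, pow_add, pow_add]
          push_cast
          linear_combination 9 * hc)
        have h2 := h1.mul_sq 3
        push_cast
        convert h2 using 1
        ring
      · by_cases h1 : M % 3 = 1
        · exact case_two M h1
        · exfalso
          apply h 1 le_rfl
          obtain ⟨j, hj⟩ : ∃ j, M = 3 * j + 2 := ⟨M / 3, by omega⟩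
          refine (Int.modEq_iff_dvd.2 ⟨(j : ℤ), ?_⟩).symm
          rw [hj]
          push_cast
          ring
    · exact case_one N hN h3

/-! ### The parity condition -/

lemma parity (N : ℕ) : 0 < N → RepG N →
    ∃ u s t : ℤ, (N : ℤ) = u ^ 2 + (s ^ 2 + s * t + t ^ 2) ∧ t % 2 = 1 := by
  -- it suffices to have `s` or `t` odd
  have swap : ∀ M u s t : ℤ, M = u ^ 2 + (s ^ 2 + s * t + t ^ 2) → (s % 2 = 1 ∨ t % 2 = 1) →
      ∃ u s t : ℤ, M = u ^ 2 + (s ^ 2 + s * t + t ^ 2) ∧ t % 2 = 1 := by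
    intro M u s t hM h
    rcases h with h | h
    · exact ⟨u, t, s, by rw [hM]; ring, h⟩
    · exact ⟨u, s, t, hM, h⟩
  induction N using Nat.strong_induction_on with
  | _ N ih =>
    rintro hN ⟨u, s, t, h⟩
    by_cases hst : s % 2 = 1 ∨ t % 2 = 1
    · exact swap N u s t h hst
    · obtain ⟨a, rfl⟩ : ∃ a, s = 2 * a := ⟨s / 2, by omega⟩
      obtain ⟨b, rfl⟩ : ∃ b, t = 2 * b := ⟨t / 2, by omega⟩
      -- one reflection
      have refl : ∀ u a b : ℤ, (N : ℤ) = u ^ 2 + ((2 * a) ^ 2 + (2 * a) * (2 * b) + (2 * b) ^ 2) →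
          ((u + b) % 2 = 1 ∨ (u + a) % 2 = 1 ∨ (u + a + b) % 2 = 1) →
          ∃ u s t : ℤ, (N : ℤ) = u ^ 2 + (s ^ 2 + s * t + t ^ 2) ∧ t % 2 = 1 := by
        intro u a b h hc
        rcases hc with hc | hc | hc
        · exact swap N (-(2 * a + b)) (-u - b) (2 * b) (by rw [h]; ring) (by left; omega)
        · exact swap N (-(2 * b + a)) (2 * a) (-u - a) (by rw [h]; ring) (by right; omega)
        · exact swap N (b - a) (a + b - u) (u + a + b) (by rw [h]; ring) (by right; omega)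
      by_cases hc : (u + b) % 2 = 1 ∨ (u + a) % 2 = 1 ∨ (u + a + b) % 2 = 1
      · exact refl u a b h hc
      · -- everything is even
        obtain ⟨v, rfl⟩ : ∃ v, u = 2 * v := ⟨u / 2, by omega⟩
        have h4 : (N : ℤ) = 4 * (v ^ 2 + (a ^ 2 + a * b + b ^ 2)) := by rw [h]; ring
        obtain ⟨M, rfl⟩ : ∃ M, N = 4 * M := ⟨N / 4, by omega⟩
        have h5 : (M : ℤ) = v ^ 2 + (a ^ 2 + a * b + b ^ 2) := by push_cast at h4; linarith
        obtain ⟨u', s', t', h6, h7⟩ := ih M (by omega) (by omega) ⟨v, a, b, h5⟩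
        refine refl (2 * u') s' t' ?_ (by left; omega)
        push_cast
        rw [h6]
        ring

/-! ### Necessity -/

lemma not_form (k : ℕ) : ∀ x y z c : ℤ, x ^ 2 + y ^ 2 + 6 * z ^ 2 ≠ 3 ^ (2 * k + 1) * (3 * c + 1) := by
  induction k with
  | zero =>
    intro x y z c h
    replace h : x ^ 2 + y ^ 2 + 6 * z ^ 2 = 3 * (3 * c + 1) := by simpa using h
    have hx : x % 3 = 0 ∧ y % 3 = 0 := by
      have h1 : (x ^ 2 + y ^ 2) % 3 = 0 := by
        have : x ^ 2 + y ^ 2 = 3 * ((3 * c + 1) - 2 * z ^ 2) := by linarith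
        omega
      have h2 : x % 3 = 0 ∨ x % 3 = 1 ∨ x % 3 = 2 := by omega
      have h3 : y % 3 = 0 ∨ y % 3 = 1 ∨ y % 3 = 2 := by omega
      rcases h2 with h2 | h2 | h2 <;> rcases h3 with h3 | h3 | h3 <;>
        simp [pow_two, Int.add_emod, Int.mul_emod, h2, h3] at h1 ⊢
    obtain ⟨a, rfl⟩ : ∃ a, x = 3 * a := ⟨x / 3, by omega⟩
    obtain ⟨b, rfl⟩ : ∃ b, y = 3 * b := ⟨y / 3, by omega⟩
    have h4 : 2 * z ^ 2 = 3 * (c - a ^ 2 - b ^ 2) + 1 := by
      linarith
    have h5 : z % 3 = 0 ∨ z % 3 = 1 ∨ z % 3 = 2 := by omega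
    have h6 : (2 * z ^ 2) % 3 = 1 := by omega
    rcases h5 with h5 | h5 | h5 <;> simp [pow_two, Int.mul_emod, h5] at h6
  | succ k ih =>
    intro x y z c h
    have e : (3 : ℤ) ^ (2 * (k + 1) + 1) = 9 * 3 ^ (2 * k + 1) := by
      rw [show 2 * (k + 1) + 1 = 2 * k + 1 + 2 by ring, pow_add]; ring
    rw [e] at h
    have hx : x % 3 = 0 ∧ y % 3 = 0 := by
      have h1 : (x ^ 2 + y ^ 2) % 3 = 0 := by
        have : x ^ 2 + y ^ 2 = 3 * (3 * (3 ^ (2 * k + 1) * (3 * c + 1)) - 2 * z ^ 2) := by linarith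
        omega
      have h2 : x % 3 = 0 ∨ x % 3 = 1 ∨ x % 3 = 2 := by omega
      have h3 : y % 3 = 0 ∨ y % 3 = 1 ∨ y % 3 = 2 := by omega
      rcases h2 with h2 | h2 | h2 <;> rcases h3 with h3 | h3 | h3 <;>
        simp [pow_two, Int.add_emod, Int.mul_emod, h2, h3] at h1 ⊢
    obtain ⟨a, rfl⟩ : ∃ a, x = 3 * a := ⟨x / 3, by omega⟩
    obtain ⟨b, rfl⟩ : ∃ b, y = 3 * b := ⟨y / 3, by omega⟩
    have h4 : 2 * z ^ 2 = 3 * (3 ^ (2 * k + 1) * (3 * c + 1) - a ^ 2 - b ^ 2) := by
      linarith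
    have hz : z % 3 = 0 := by
      have h5 : z % 3 = 0 ∨ z % 3 = 1 ∨ z % 3 = 2 := by omega
      have h6 : (2 * z ^ 2) % 3 = 0 := by omega
      rcases h5 with h5 | h5 | h5 <;> simp [pow_two, Int.mul_emod, h5] at h6 ⊢
    obtain ⟨d, rfl⟩ : ∃ d, z = 3 * d := ⟨z / 3, by omega⟩
    exact ih a b d c (by linarith)

/-! ### The theorem -/

lemma two_T (x : ℤ) : 2 * (x * (x - 1) / 2) = x * (x - 1) := by
  have h : 2 ∣ x * (x - 1) := by
    rcases Int.even_or_odd x with ⟨k, hk⟩ | ⟨k, hk⟩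
    · exact ⟨k * (x - 1), by rw [hk]; ring⟩
    · exact ⟨x * k, by rw [hk]; ring⟩
  exact Int.mul_ediv_cancel' h

/-- **Full answer**: `n = x(x-1)/2 + y(y-1)/2 + 6 z(z-1)/2` is solvable in integers if and only if
`n ≢ 2·3^(2r-1) - 1 (mod 3^(2r))` for every `r ≥ 1`. -/
theorem result (n : ℕ) :
    (∃ x y z : ℤ, (n : ℤ) = x * (x - 1) / 2 + y * (y - 1) / 2 + 6 * (z * (z - 1) / 2)) ↔
      ∀ r : ℕ, 1 ≤ r → ¬ ((n : ℤ) ≡ 2 * 3 ^ (2 * r - 1) - 1 [ZMOD 3 ^ (2 * r)]) := by
  constructor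
  · rintro ⟨x, y, z, h⟩ r hr hc
    obtain ⟨c, hc⟩ := hc.symm.dvd
    obtain ⟨j, rfl⟩ : ∃ j, r = j + 1 := ⟨r - 1, by omega⟩
    rw [show 2 * (j + 1) - 1 = 2 * j + 1 by omega, show 2 * (j + 1) = 2 * j + 1 + 1 by ring,
      pow_succ (3 : ℤ) (2 * j + 1)] at hc
    have hx := two_T x
    have hy := two_T y
    have hz := two_T z
    refine not_form j (2 * x - 1) (2 * y - 1) (2 * z - 1) (8 * c + 5) ?_
    linear_combination (-4) * hx - 4 * hy - 24 * hz - 8 * h + 8 * hc
  · intro h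
    have h1 : RepG ((n + 1 : ℕ) : ℤ) := by
      refine repG_all (n + 1) (by omega) fun r hr hc => h r hr ?_
      have := hc.sub_right 1
      push_cast at this
      simpa using this
    obtain ⟨u, s, t, h2, h3⟩ := parity (n + 1) (by omega) h1
    obtain ⟨w, rfl⟩ : ∃ w, t = 2 * w - 1 := ⟨(t + 1) / 2, by omega⟩
    refine ⟨u + s + w, u - s - w + 1, w, ?_⟩
    have hx := two_T (u + s + w)
    have hy := two_T (u - s - w + 1)
    have hz := two_T w
    push_cast at h2
    linarith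

end Pool.Agent.Results.MP_fb76f8_nt.TriangularOneOneSix
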